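import Pool.Agent.helper41.NU.A1

set_option autoImplicit false

/-! MP_737c0a_gt, module A4: Weyl's lemma for the `∂̄` operators in `ℂⁿ`. -/

open MeasureTheory Filter Topology Set
open scoped ContDiff Manifold Matrix ENNReal ComplexOrder Convolution

noncomputable section

namespace Pool.Agent.helper63.NU

variable {n : ℕ}

namespace A4

/-! ### a circle invariant kernel -/

/-- smooth kernel supported in the Euclidean ball of radius `δ` -/
def kern (δ : ℝ) (y : E n) : ℝ := expNegInvGlue (δ ^ 2 - ∑ j, Complex.normSq (y j))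

theorem contDiff_kern (δ : ℝ) : ContDiff ℝ ∞ (kern (n := n) δ) := by
  unfold kern
  refine (expNegInvGlue.contDiff (n := ⊤)).comp ?_
  refine contDiff_const.sub (ContDiff.sum fun j _ => ?_)
  have : (fun y : E n => Complex.normSq (y j)) = fun y => (y j).re * (y j).re + (y j).im * (y j).im := by
    funext y; exact Complex.normSq_apply _
  rw [this]
  have hj : ContDiff ℝ ∞ (fun y : E n => y j) := contDiff_apply ℝ ℂ j
  have h1 : ContDiff ℝ ∞ (fun y : E n => (y j).re) := Complex.reCLM.contDiff.comp hj
  have h2 : ContDiff ℝ ∞ (fun y : E n => (y j).im) := Complex.imCLM.contDiff.comp hj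
  exact (h1.mul h1).add (h2.mul h2)

theorem kern_nonneg (δ : ℝ) (y : E n) : 0 ≤ kern δ y := expNegInvGlue.nonneg _

theorem kern_zero {δ : ℝ} (hδ : 0 < δ) : kern δ (0 : E n) ≠ 0 := by
  have : 0 < kern δ (0 : E n) := by
    refine expNegInvGlue.pos_of_pos ?_
    simp only [Pi.zero_apply, map_zero, Finset.sum_const_zero, sub_zero]
    positivity
  exact this.ne'

theorem kern_eq_zero {δ : ℝ} (hδ : 0 < δ) {y : E n} (hy : δ ≤ ‖y‖) : kern δ y = 0 := by
  refine expNegInvGlue.zero_of_nonpos ?_
  by_contra hlt
  push Not at hlt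
  have h1 : ‖y‖ < δ := by
    refine (pi_norm_lt_iff hδ).2 fun j => ?_
    have h2 : Complex.normSq (y j) ≤ ∑ i, Complex.normSq (y i) :=
      Finset.single_le_sum (fun i _ => Complex.normSq_nonneg (y i)) (Finset.mem_univ j)
    have h3 : ‖y j‖ ^ 2 < δ ^ 2 := by
      rw [← Complex.normSq_eq_norm_sq]; linarith
    exact lt_of_pow_lt_pow_left₀ 2 hδ.le h3
  linarith

theorem kern_smul (δ : ℝ) {c : ℂ} (hc : ‖c‖ = 1) (y : E n) : kern δ (c • y) = kern δ y := by
  unfold kern
  congr 2
  refine Finset.sum_congr rfl fun j _ => ?_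
  rw [Pi.smul_apply, smul_eq_mul, map_mul, Complex.normSq_eq_norm_sq c, hc]
  ring

theorem measurePreserving_smul {c : ℂ} (hc : ‖c‖ = 1) :
    MeasurePreserving (fun t : E n => c • t) volume volume := by
  have h : MeasurePreserving (fun z : ℂ => c * z) volume volume := by
    have hu : c ∈ Submonoid.unitSphere ℂ := by
      simpa [Submonoid.unitSphere] using hc
    exact (rotation (⟨c, hu⟩ : Circle)).measurePreserving
  exact volume_preserving_pi fun _ => h

theorem integral_smul_comp {c : ℂ} (hc : ‖c‖ = 1) (g : E n → ℂ) :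
    ∫ t, g (c • t) = ∫ t, g t := by
  have hc0 : c ≠ 0 := by
    intro h; rw [h, norm_zero] at hc; exact zero_ne_one hc
  have hm := measurePreserving_smul (n := n) hc
  refine hm.integral_comp ?_ g
  exact (Homeomorph.smulOfNeZero c hc0).measurableEmbedding

theorem mean_kern {δ : ℝ} (hδ : 0 < δ) {V : Set (E n)} {f : E n → ℂ}
    (hf : DifferentiableOn ℂ f V) {x : E n} (hx : Metric.closedBall x δ ⊆ V) :
    ∫ t, kern δ t • f (x - t) = (∫ t : E n, kern δ t) • f x := by
  set F : ℝ → E n → ℂ := fun θ t => kern δ t • f (x - circleMap 0 1 θ • t) with hF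
  have hcn : ∀ θ : ℝ, ‖circleMap 0 1 θ‖ = 1 := by
    intro θ; rw [norm_circleMap_zero]; exact abs_one
  have h1 : ∀ θ : ℝ, ∫ t, F θ t = ∫ t, kern δ t • f (x - t) := by
    intro θ
    rw [← integral_smul_comp (hcn θ) (fun t => kern δ t • f (x - t))]
    refine integral_congr_ae (Eventually.of_forall fun t => ?_)
    simp only [hF, kern_smul δ (hcn θ)]
  have hcont : ContinuousOn (Function.uncurry F) (Icc 0 (2 * Real.pi) ×ˢ Metric.closedBall (0 : E n) δ) := by
    have hk : ContinuousOn (fun p : ℝ × E n => kern δ p.2)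
        (Icc 0 (2 * Real.pi) ×ˢ Metric.closedBall (0 : E n) δ) :=
      ((contDiff_kern δ).continuous.comp continuous_snd).continuousOn
    have hk2 : ContinuousOn (fun p : ℝ × E n => f (x - circleMap 0 1 p.1 • p.2))
        (Icc 0 (2 * Real.pi) ×ˢ Metric.closedBall (0 : E n) δ) := by
      refine hf.continuousOn.comp ?_ ?_
      · have hc : Continuous fun p : ℝ × E n => x - circleMap 0 1 p.1 • p.2 :=
          continuous_const.sub (((continuous_circleMap 0 1).comp continuous_fst).smul continuous_snd)
        exact hc.continuousOn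
      · rintro ⟨θ, t⟩ ⟨-, ht⟩
        refine hx ?_
        rw [Metric.mem_closedBall, dist_eq_norm] at ht ⊢
        simp only [sub_sub_cancel_left, norm_neg, norm_smul, hcn, one_mul, sub_zero] at ht ⊢
        exact ht
    exact hk.smul hk2
  have hint : Integrable (Function.uncurry F) ((volume.restrict (Ioc 0 (2 * Real.pi))).prod volume) := by
    have hc := hcont.integrableOn_compact (μ := volume.prod volume)
      (isCompact_Icc.prod (isCompact_closedBall _ _))
    have hc2 := hc.mono_set (Set.prod_mono Ioc_subset_Icc_self (Subset.refl _))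
    rw [IntegrableOn, ← Measure.prod_restrict] at hc2
    have hs : Function.support (Function.uncurry F) ⊆ univ ×ˢ Metric.closedBall (0 : E n) δ := by
      rintro ⟨θ, t⟩ ht
      refine ⟨mem_univ _, ?_⟩
      by_contra hlt
      rw [Metric.mem_closedBall, dist_zero_right] at hlt
      apply ht
      simp only [hF, Function.uncurry_apply_pair, kern_eq_zero hδ (not_le.1 hlt).le, zero_smul]
    rw [← integrableOn_iff_integrable_of_support_subset hs, IntegrableOn, ← Measure.prod_restrict,
      Measure.restrict_univ]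
    exact hc2
  have h2 : ∫ θ in (0 : ℝ)..(2 * Real.pi), ∫ t, F θ t = ∫ t, ∫ θ in (0 : ℝ)..(2 * Real.pi), F θ t := by
    simp_rw [intervalIntegral.integral_of_le Real.two_pi_pos.le]
    exact integral_integral_swap hint
  have h3 : ∀ t, ∫ θ in (0 : ℝ)..(2 * Real.pi), F θ t = (2 * Real.pi) • (kern δ t • f x) := by
    intro t
    by_cases ht : δ ≤ ‖t‖
    · simp only [hF, kern_eq_zero hδ ht, zero_smul, smul_zero, intervalIntegral.integral_zero]
    · push Not at ht
      have hd : DiffContOnCl ℂ (fun l : ℂ => f (x - l • t)) (Metric.ball 0 |(1 : ℝ)|) := by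
        refine DifferentiableOn.diffContOnCl ?_
        refine hf.comp ?_ ?_
        · exact ((differentiable_const x).sub (differentiable_id.smul_const t)).differentiableOn
        · intro l hl
          have hl' := Metric.closure_ball_subset_closedBall hl
          rw [Metric.mem_closedBall, dist_zero_right, abs_one] at hl'
          refine hx ?_
          rw [Metric.mem_closedBall, dist_eq_norm]
          simp only [sub_sub_cancel_left, norm_neg, norm_smul]
          nlinarith [norm_nonneg t, norm_nonneg l]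
      have h4 := hd.circleAverage
      rw [Real.circleAverage_def] at h4
      simp only [zero_smul, sub_zero] at h4
      have h5 : ∫ θ in (0 : ℝ)..(2 * Real.pi), f (x - circleMap 0 1 θ • t) = (2 * Real.pi) • f x := by
        rw [← h4, smul_smul, mul_inv_cancel₀ Real.two_pi_pos.ne', one_smul]
      simp only [hF]
      rw [intervalIntegral.integral_smul, h5, smul_comm]
  have h6 : ∫ θ in (0 : ℝ)..(2 * Real.pi), ∫ t, F θ t = (2 * Real.pi) • ∫ t, kern δ t • f (x - t) := by
    simp_rw [h1]
    rw [intervalIntegral.integral_const, sub_zero]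
  rw [h6] at h2
  simp_rw [h3] at h2
  rw [integral_smul, integral_smul_const] at h2
  exact smul_right_injective ℂ (Real.two_pi_pos.ne') h2

/-! ### mollified functions are holomorphic -/

theorem fderiv_refl {φ : E n → ℝ} (hφ : ContDiff ℝ ∞ φ) (x t v : E n) :
    fderiv ℝ (fun t => ((φ (x - t) : ℝ) : ℂ)) t v = -((fderiv ℝ φ (x - t) v : ℝ) : ℂ) := by
  have h1 : HasFDerivAt φ (fderiv ℝ φ (x - t)) (x - t) :=
    (hφ.differentiable (by simp)).differentiableAt.hasFDerivAt
  have h2 : HasFDerivAt (fun t : E n => x - t) (-(ContinuousLinearMap.id ℝ (E n))) t := by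
    exact (hasFDerivAt_id (𝕜 := ℝ) t).const_sub x
  have h0 : HasFDerivAt (fun s : ℝ => (s : ℂ)) Complex.ofRealCLM (φ (x - t)) :=
    Complex.ofRealCLM.hasFDerivAt
  have h3 := h0.comp t (h1.comp t h2)
  have h4 : fderiv ℝ (fun t => ((φ (x - t) : ℝ) : ℂ)) t = _ := h3.fderiv
  rw [h4]
  simp

theorem hol_mollify {U K : Set (E n)} {r : E n → ℂ} (hKU : K ⊆ U) (hKm : MeasurableSet K)
    (hr : IntegrableOn r K)
    (h : ∀ u : E n → ℂ, ContDiff ℝ ∞ u → HasCompactSupport u → tsupport u ⊆ U →
      ∀ j, ∫ y, r y * db j u y = 0)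
    {φ : E n → ℝ} (hφ : ContDiff ℝ ∞ φ) {δ : ℝ} (hs : tsupport φ ⊆ Metric.closedBall 0 δ)
    {V : Set (E n)} (hV : IsOpen V) (hVK : ∀ x ∈ V, Metric.closedBall x δ ⊆ K) :
    DifferentiableOn ℂ (φ ⋆[ContinuousLinearMap.lsmul ℝ ℝ, volume] (K.indicator r)) V := by
  have hcφ : HasCompactSupport φ :=
    (isCompact_closedBall (0 : E n) δ).of_isClosed_subset (isClosed_tsupport φ) hs
  set g := K.indicator r with hg
  have hgi : Integrable g := (integrable_indicator_iff hKm).2 hr
  have hφ1 : ContDiff ℝ 1 φ := hφ.of_le (by simp)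
  have hder : ∀ x, HasFDerivAt (φ ⋆[ContinuousLinearMap.lsmul ℝ ℝ, volume] g)
      ((g ⋆[(ContinuousLinearMap.lsmul ℝ ℝ).flip.precompR (E n), volume] fderiv ℝ φ) x) x := by
    intro x
    rw [← convolution_flip]
    exact hcφ.hasFDerivAt_convolution_right _ hgi.locallyIntegrable hφ1 x
  have hval : ∀ x v, fderiv ℝ (φ ⋆[ContinuousLinearMap.lsmul ℝ ℝ, volume] g) x v
      = ∫ t, ((fderiv ℝ φ (x - t) v : ℝ) : ℂ) * g t := by
    intro x v
    rw [(hder x).fderiv, convolution_precompR_apply _ hgi.locallyIntegrable (hcφ.fderiv ℝ)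
      (hφ1.continuous_fderiv (by simp)) x v, convolution_def]
    refine integral_congr_ae (Eventually.of_forall fun t => ?_)
    simp
  refine hol_of_db hV (fun x _ => (hder x).differentiableAt.differentiableWithinAt) ?_
  intro x hx j
  have hu : ContDiff ℝ ∞ (fun t => ((φ (x - t) : ℝ) : ℂ)) :=
    Complex.ofRealCLM.contDiff.comp (hφ.comp (contDiff_const.sub contDiff_id))
  have hus : tsupport (fun t => ((φ (x - t) : ℝ) : ℂ)) ⊆ Metric.closedBall x δ := by
    refine closure_minimal ?_ Metric.isClosed_closedBall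
    intro t ht
    have h1 : φ (x - t) ≠ 0 := by
      intro h0; apply ht; simp [h0]
    have h2 := hs (subset_tsupport φ h1)
    rw [Metric.mem_closedBall, dist_zero_right] at h2
    rw [Metric.mem_closedBall, dist_comm, dist_eq_norm]
    exact h2
  have huc : HasCompactSupport (fun t => ((φ (x - t) : ℝ) : ℂ)) :=
    (isCompact_closedBall x δ).of_isClosed_subset (isClosed_tsupport _) hus
  have h0 := h _ hu huc (hus.trans ((hVK x hx).trans hKU)) j
  have h5 : ∀ t, r t * db j (fun t => ((φ (x - t) : ℝ) : ℂ)) t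
      = -((((fderiv ℝ φ (x - t) (Pi.single j 1) : ℝ) : ℂ) * g t
        + Complex.I * (((fderiv ℝ φ (x - t) (Pi.single j Complex.I) : ℝ) : ℂ) * g t)) / 2) := by
    intro t
    by_cases ht : t ∈ K
    · rw [db, fderiv_refl hφ, fderiv_refl hφ, hg, indicator_of_mem ht]
      ring
    · have h6 : db j (fun t => ((φ (x - t) : ℝ) : ℂ)) t = 0 := by
        refine image_eq_zero_of_notMem_tsupport fun hm => ht ?_
        exact hVK x hx (hus (tsupport_db_subset _ j hm))
      rw [h6, hg, indicator_of_notMem ht]
      ring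
  have hci : ∀ v, Integrable (fun t => ((fderiv ℝ φ (x - t) v : ℝ) : ℂ) * g t) := by
    intro v
    have hk : HasCompactSupport (fun a => fderiv ℝ φ a v) := hcφ.fderiv_apply ℝ v
    have hkc : Continuous (fun a => fderiv ℝ φ a v) :=
      (hφ1.continuous_fderiv (by simp)).clm_apply continuous_const
    have h7 := HasCompactSupport.convolutionExists_right (μ := volume) (f := g)
      (ContinuousLinearMap.lsmul ℝ ℝ).flip hk hgi.locallyIntegrable hkc x
    refine Integrable.congr h7 (Eventually.of_forall fun t => ?_)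
    simp
  simp_rw [h5] at h0
  rw [integral_neg, integral_div, integral_add (hci _) ((hci _).const_mul _), integral_const_mul,
    ← hval, ← hval, neg_eq_zero] at h0
  exact h0

/-! ### commutation of two mollifications -/

theorem conv_comm {k φ : E n → ℝ} (hk : Continuous k) (hkc : HasCompactSupport k)
    (hφ : Continuous φ) (hφc : HasCompactSupport φ) {g : E n → ℂ} (hg : Integrable g) (x : E n) :
    (k ⋆[ContinuousLinearMap.lsmul ℝ ℝ, volume] (φ ⋆[ContinuousLinearMap.lsmul ℝ ℝ, volume] g)) x
    = (φ ⋆[ContinuousLinearMap.lsmul ℝ ℝ, volume] (k ⋆[ContinuousLinearMap.lsmul ℝ ℝ, volume] g)) x := by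
  have key : ∀ {a b : E n → ℝ}, Continuous a → HasCompactSupport a → Continuous b →
      HasCompactSupport b →
      ((a ⋆[ContinuousLinearMap.mul ℝ ℝ, volume] b) ⋆[ContinuousLinearMap.lsmul ℝ ℝ, volume] g) x
      = (a ⋆[ContinuousLinearMap.lsmul ℝ ℝ, volume]
          (b ⋆[ContinuousLinearMap.lsmul ℝ ℝ, volume] g)) x := by
    intro a b ha hac hb hbc
    have hgn : LocallyIntegrable (fun x => ‖g x‖) := hg.norm.locallyIntegrable
    refine convolution_assoc (ContinuousLinearMap.mul ℝ ℝ) (ContinuousLinearMap.lsmul ℝ ℝ)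
      (ContinuousLinearMap.lsmul ℝ ℝ) (ContinuousLinearMap.lsmul ℝ ℝ) ?_
      ha.aestronglyMeasurable hb.aestronglyMeasurable hg.aestronglyMeasurable ?_ ?_ ?_
    · intro u v w
      simp [mul_smul]
    · exact Eventually.of_forall fun y =>
        hac.convolutionExists_left _ ha hb.locallyIntegrable y
    · exact Eventually.of_forall fun y =>
        hbc.norm.convolutionExists_left _ hb.norm hgn y
    · refine hac.norm.convolutionExists_left _ ha.norm ?_ x
      exact (hbc.norm.continuous_convolution_left _ hb.norm hgn).locallyIntegrable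
  rw [← key hk hkc hφ hφc, ← key hφ hφc hk hkc]
  congr 1
  funext y
  rw [convolution_mul_swap]
  refine integral_congr_ae (Eventually.of_forall fun t => ?_)
  simp [mul_comm]

theorem local_weyl {U : Set (E n)} (hU : IsOpen U) {r : E n → ℂ}
    (hr : ∀ K : Set (E n), IsCompact K → K ⊆ U → MemLp r 2 (volume.restrict K))
    (h : ∀ u : E n → ℂ, ContDiff ℝ ∞ u → HasCompactSupport u → tsupport u ⊆ U →
      ∀ j, ∫ y, r y * db j u y = 0) {p : E n} (hp : p ∈ U) :
    ∃ ρ > 0, ∃ g : E n → ℂ, Metric.ball p ρ ⊆ U ∧ DifferentiableOn ℂ g (Metric.ball p ρ) ∧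
      ∀ᵐ y ∂(volume.restrict (Metric.ball p ρ)), r y = g y := by
  obtain ⟨R, hR, hRU⟩ := Metric.nhds_basis_closedBall.mem_iff.1 (hU.mem_nhds hp)
  set K := Metric.closedBall p R with hK
  have hKc : IsCompact K := isCompact_closedBall p R
  have hKm : MeasurableSet K := hKc.measurableSet
  have hrK : IntegrableOn r K := by
    have : IsFiniteMeasure (volume.restrict K) := ⟨by
      rw [Measure.restrict_apply_univ]; exact hKc.measure_lt_top⟩
    exact (hr K hKc hRU).integrable (by norm_num)
  set g := K.indicator r with hg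
  have hgi : Integrable g := (integrable_indicator_iff hKm).2 hrK
  set δ := R / 4 with hδd
  have hδ : 0 < δ := by positivity
  set c := ∫ t : E n, kern δ t with hc
  have hkcs0 : tsupport (kern (n := n) δ) ⊆ Metric.closedBall 0 δ := by
    refine closure_minimal ?_ Metric.isClosed_closedBall
    intro t ht
    rw [Metric.mem_closedBall, dist_zero_right]
    by_contra hlt
    exact ht (kern_eq_zero hδ (not_le.1 hlt).le)
  have hkc0 : HasCompactSupport (kern (n := n) δ) :=
    (isCompact_closedBall (0 : E n) δ).of_isClosed_subset (isClosed_tsupport _) hkcs0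
  have hcpos : 0 < c := (contDiff_kern δ).continuous.integral_pos_of_hasCompactSupport_nonneg_nonzero
    hkc0 (kern_nonneg δ) (kern_zero hδ)
  set k : E n → ℝ := fun y => c⁻¹ * kern δ y with hk
  have hkd : ContDiff ℝ ∞ k := contDiff_const.mul (contDiff_kern δ)
  have hkcs : tsupport k ⊆ Metric.closedBall 0 δ := by
    refine closure_minimal ?_ Metric.isClosed_closedBall
    intro t ht
    rw [Metric.mem_closedBall, dist_zero_right]
    by_contra hlt
    exact ht (by simp only [hk, kern_eq_zero hδ (not_le.1 hlt).le, mul_zero])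
  have hkc : HasCompactSupport k :=
    (isCompact_closedBall (0 : E n) δ).of_isClosed_subset (isClosed_tsupport _) hkcs
  let φ : ℕ → ContDiffBump (0 : E n) := fun i =>
    { rIn := δ / (2 * (i + 1)), rOut := δ / (i + 1)
      rIn_pos := by positivity
      rIn_lt_rOut := by
        refine div_lt_div_of_pos_left hδ (by positivity) ?_
        have : (0 : ℝ) < i + 1 := by positivity
        linarith }
  have hφ0 : Tendsto (fun i => (φ i).rOut) atTop (𝓝 0) := by
    have := tendsto_one_div_add_atTop_nhds_zero_nat (𝕜 := ℝ)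
    have h2 := this.const_mul δ
    rw [mul_zero] at h2
    refine h2.congr fun i => ?_
    show δ * (1 / ((i : ℝ) + 1)) = δ / (i + 1)
    ring
  have hφle : ∀ i, (φ i).rOut ≤ δ := by
    intro i
    show δ / ((i : ℝ) + 1) ≤ δ
    refine div_le_self hδ.le ?_
    have : (0 : ℝ) ≤ i := Nat.cast_nonneg i
    linarith
  have hae := ContDiffBump.ae_convolution_tendsto_right_of_locallyIntegrable (μ := volume) (K := 2)
    (l := atTop) (φ := φ) hφ0 (Eventually.of_forall fun i => by
      show δ / ((i : ℝ) + 1) ≤ 2 * (δ / (2 * (i + 1)))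
      refine le_of_eq ?_
      field_simp) hgi.locallyIntegrable
  have hball : ∀ x ∈ Metric.ball p δ, Metric.closedBall x δ ⊆ Metric.ball p (3 * δ) := by
    intro x hx y hy
    rw [Metric.mem_ball] at hx ⊢
    rw [Metric.mem_closedBall] at hy
    have := dist_triangle y x p
    linarith
  have hball2 : ∀ x ∈ Metric.ball p (3 * δ), Metric.closedBall x δ ⊆ K := by
    intro x hx y hy
    rw [Metric.mem_ball] at hx
    rw [Metric.mem_closedBall] at hy
    rw [hK, Metric.mem_closedBall]
    have := dist_triangle y x p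
    linarith
  have hsub : Metric.ball p δ ⊆ Metric.ball p (3 * δ) := Metric.ball_subset_ball (by linarith)
  refine ⟨δ, hδ, k ⋆[ContinuousLinearMap.lsmul ℝ ℝ, volume] g, ?_, ?_, ?_⟩
  · intro x hx
    refine hRU ?_
    rw [Metric.mem_ball] at hx
    rw [hK, Metric.mem_closedBall]
    linarith
  · exact hol_mollify hRU hKm hrK h hkd hkcs Metric.isOpen_ball (fun x hx => hball2 x (hsub hx))
  · rw [ae_restrict_iff' Metric.isOpen_ball.measurableSet]
    filter_upwards [hae] with x hx hxb
    have hgx : g x = r x := by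
      rw [hg, indicator_of_mem]
      exact hball2 x (hsub hxb) (Metric.mem_closedBall_self hδ.le)
    rw [← hgx]
    refine tendsto_nhds_unique hx ?_
    have hcontk : Continuous (k ⋆[ContinuousLinearMap.lsmul ℝ ℝ, volume] g) :=
      hkc.continuous_convolution_left _ hkd.continuous hgi.locallyIntegrable
    have h1 := ContDiffBump.convolution_tendsto_right_of_continuous (μ := volume) hφ0 hcontk x
    refine h1.congr fun i => ?_
    have hcφ : Continuous ((φ i).normed volume) := (φ i).continuous_normed
    have hsφ : HasCompactSupport ((φ i).normed volume) := (φ i).hasCompactSupport_normed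
    rw [← conv_comm hkd.continuous hkc hcφ hsφ hgi x]
    have hhol : DifferentiableOn ℂ
        ((φ i).normed volume ⋆[ContinuousLinearMap.lsmul ℝ ℝ, volume] g) (Metric.ball p (3 * δ)) := by
      refine hol_mollify hRU hKm hrK h (φ i).contDiff_normed ?_ Metric.isOpen_ball hball2
      rw [(φ i).tsupport_normed_eq]
      exact Metric.closedBall_subset_closedBall (hφle i)
    have h2 := mean_kern hδ hhol (hball x hxb)
    rw [convolution_def]
    have h3 : ∀ t, (ContinuousLinearMap.lsmul ℝ ℝ) (k t)
        (((φ i).normed volume ⋆[ContinuousLinearMap.lsmul ℝ ℝ, volume] g) (x - t))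
        = c⁻¹ • (kern δ t • ((φ i).normed volume ⋆[ContinuousLinearMap.lsmul ℝ ℝ, volume] g) (x - t)) := by
      intro t
      rw [ContinuousLinearMap.lsmul_apply, smul_smul]
    simp_rw [h3]
    rw [integral_smul, h2, smul_smul, inv_mul_cancel₀ hcpos.ne', one_smul]

end A4

theorem weyl {U : Set (E n)} (hU : IsOpen U) {r : E n → ℂ}
    (hr : ∀ K : Set (E n), IsCompact K → K ⊆ U → MemLp r 2 (volume.restrict K))
    (h : ∀ u : E n → ℂ, ContDiff ℝ ∞ u → HasCompactSupport u → tsupport u ⊆ U →
      ∀ j, ∫ y, r y * db j u y = 0) :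
    ∃ g : E n → ℂ, DifferentiableOn ℂ g U ∧ ∀ᵐ y ∂(volume.restrict U), r y = g y := by
  classical
  choose! ρ hρ g hgU hgd hga using fun p (hp : p ∈ U) => A4.local_weyl hU hr h hp
  have hcons : ∀ p ∈ U, ∀ x ∈ Metric.ball p (ρ p), g x x = g p x := by
    intro p hp x hx
    have hxU : x ∈ U := hgU p hp hx
    have hxx : x ∈ Metric.ball x (ρ x) := Metric.mem_ball_self (hρ x hxU)
    have h1 : r =ᵐ[volume.restrict (Metric.ball x (ρ x) ∩ Metric.ball p (ρ p))] g x :=
      ae_restrict_of_ae_restrict_of_subset inter_subset_left (hga x hxU)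
    have h2 : r =ᵐ[volume.restrict (Metric.ball x (ρ x) ∩ Metric.ball p (ρ p))] g p :=
      ae_restrict_of_ae_restrict_of_subset inter_subset_right (hga p hp)
    exact Measure.eqOn_open_of_ae_eq (h1.symm.trans h2) (Metric.isOpen_ball.inter Metric.isOpen_ball)
      ((hgd x hxU).continuousOn.mono inter_subset_left)
      ((hgd p hp).continuousOn.mono inter_subset_right) ⟨hxx, hx⟩
  refine ⟨fun x => g x x, ?_, ?_⟩
  · intro p hp
    have hb : Metric.ball p (ρ p) ∈ 𝓝 p := Metric.ball_mem_nhds p (hρ p hp)
    have h1 : DifferentiableAt ℂ (g p) p := (hgd p hp).differentiableAt hb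
    have h2 : (fun x => g x x) =ᶠ[𝓝 p] g p := by
      filter_upwards [hb] with x hx using hcons p hp x hx
    exact (h1.congr_of_eventuallyEq h2).differentiableWithinAt
  · rw [ae_restrict_iff' hU.measurableSet, ae_iff]
    refine measure_null_of_locally_null _ fun x hx => ?_
    have hxU : x ∈ U := by
      by_contra hn
      exact hx fun hm => absurd hm hn
    refine ⟨{a | ¬(a ∈ U → r a = g a a)} ∩ Metric.ball x (ρ x),
      inter_mem_nhdsWithin _ (Metric.ball_mem_nhds x (hρ x hxU)), ?_⟩
    have h1 := hga x hxU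
    rw [ae_restrict_iff' Metric.isOpen_ball.measurableSet, ae_iff] at h1
    refine measure_mono_null ?_ h1
    rintro a ⟨ha1, ha2⟩ hcon
    refine ha1 fun _ => ?_
    rw [hcon ha2, hcons x hxU a ha2]

end Pool.Agent.helper63.NU
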