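import Pool.Agent.helper41.NU.A1
import Pool.Agent.helper41.NU.A2
import Pool.Agent.helper80.NU.B4
import Pool.Agent.helper5.NU.H1

set_option autoImplicit false
set_option linter.all false

/-! The operator `bx` on a Kähler–Einstein manifold: `bx φ f = - ∑ Θ⁻¹_{kj} ∂_j ∂̄_k f`. -/

open MeasureTheory Filter Topology Set
open scoped ContDiff Manifold Matrix ENNReal ComplexOrder

noncomputable section

namespace Pool.Agent.helper63.NU

namespace KE

theorem bx_eq {n : ℕ} {U : Set (E n)} (hU : IsOpen U) {ψ : E n → ℝ} (hψ : ContDiffOn ℝ ∞ ψ U)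
    (hp : ∀ y ∈ U, (lev ψ y).PosDef) {c : ℝ} (hc0 : c ≠ 0)
    (hc : ∀ z ∈ U, (lev ψ z).det = (c : ℂ) * (Real.exp (-ψ z) : ℂ))
    {f : E n → ℂ} (hf : ContDiffOn ℝ ∞ f U) {y : E n} (hy : y ∈ U) :
    bx ψ f y = -∑ j, ∑ k, (lev ψ y)⁻¹ k j * dz j (db k f) y := by
  have hUy : U ∈ 𝓝 y := hU.mem_nhds hy
  have hcC : (c : ℂ) ≠ 0 := by exact_mod_cast hc0
  have hR : ∀ k j, DifferentiableAt ℝ (fun z => (lev ψ z)⁻¹ k j) y := fun a b =>
    ((contDiffOn_lev_inv hU hψ hp a b).contDiffAt hUy).differentiableAt (by simp)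
  have hE : DifferentiableAt ℝ (fun z => (Real.exp (-ψ z) : ℂ)) y := by
    have h1 : DifferentiableAt ℝ ψ y := (hψ.contDiffAt hUy).differentiableAt (by simp)
    exact (Complex.ofRealCLM.differentiableAt).comp y (h1.neg.exp)
  have hdet : DifferentiableAt ℝ (fun z => (lev ψ z).det) y := by
    have h1 : (fun z => (lev ψ z).det) =ᶠ[𝓝 y] fun z => (c : ℂ) * (Real.exp (-ψ z) : ℂ) := by
      filter_upwards [hUy] with z hz using hc z hz
    exact (hE.const_mul (c : ℂ)).congr_of_eventuallyEq h1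
  have hf' : ∀ k, DifferentiableAt ℝ (db k f) y := fun k =>
    ((contDiffOn_db hU hf k).contDiffAt hUy).differentiableAt (by simp)
  set F : Fin n → Fin n → E n → ℂ := fun k j z => (lev ψ z).det * (lev ψ z)⁻¹ k j with hF
  have hFd : ∀ k j, DifferentiableAt ℝ (F k j) y := fun k j => hdet.mul (hR k j)
  have h1 : ∀ j, dz j (fun z => (Real.exp (-ψ z) : ℂ) * rs (lev ψ z) (dbv f z) j) y =
      (c : ℂ)⁻¹ * ∑ k, (dz j (F k j) y * db k f y + F k j y * dz j (db k f) y) := by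
    intro j
    have h2 : (fun z => (Real.exp (-ψ z) : ℂ) * rs (lev ψ z) (dbv f z) j) =ᶠ[𝓝 y]
        fun z => (c : ℂ)⁻¹ * ∑ k, F k j z * db k f z := by
      filter_upwards [hUy] with z hz
      simp only [rs, dbv, hF]
      rw [hc z hz, Finset.mul_sum, Finset.mul_sum]
      refine Finset.sum_congr rfl fun k _ => ?_
      field_simp
    rw [dz_congr h2, dz_const_mul, dz_sum (f := fun k z => F k j z * db k f z) Finset.univ
      (fun k _ => (hFd k j).mul (hf' k))]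
    congr 1
    refine Finset.sum_congr rfl fun k _ => ?_
    rw [dz_mul (hFd k j) (hf' k)]
  have h3 : ∑ j, ∑ k, (dz j (F k j) y * db k f y + F k j y * dz j (db k f) y) =
      (lev ψ y).det * ∑ j, ∑ k, (lev ψ y)⁻¹ k j * dz j (db k f) y := by
    simp only [Finset.sum_add_distrib]
    have h4 : ∑ j, ∑ k, dz j (F k j) y * db k f y = 0 := by
      rw [Finset.sum_comm]
      refine Finset.sum_eq_zero fun k _ => ?_
      rw [← Finset.sum_mul, cof_div hU hψ hp hy k, zero_mul]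
    rw [h4, zero_add, Finset.mul_sum]
    refine Finset.sum_congr rfl fun j _ => ?_
    rw [Finset.mul_sum]
    refine Finset.sum_congr rfl fun k _ => ?_
    simp only [hF]
    ring
  unfold bx
  rw [Finset.sum_congr rfl fun j _ => h1 j, ← Finset.mul_sum, h3, hc y hy]
  have h5 : (Real.exp (ψ y) : ℂ) * (Real.exp (-ψ y) : ℂ) = 1 := by
    rw [← Complex.ofReal_mul, ← Real.exp_add]
    simp
  set S := ∑ j, ∑ k, (lev ψ y)⁻¹ k j * dz j (db k f) y with hS
  calc -(Real.exp (ψ y) : ℂ) * ((c : ℂ)⁻¹ * ((c : ℂ) * (Real.exp (-ψ y) : ℂ) * S))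
      = -(((Real.exp (ψ y) : ℂ) * (Real.exp (-ψ y) : ℂ)) * ((c : ℂ)⁻¹ * (c : ℂ)) * S) := by ring
    _ = -S := by rw [h5, inv_mul_cancel₀ hcC, one_mul, one_mul]

variable {n : ℕ} {M : Type*} [TopologicalSpace M] [ChartedSpace (E n) M]
  [IsManifold 𝓘(ℂ, E n) ω M] {φ : Fam n M ℝ}

theorem det_eq (hφ : IsPos 1 φ) {c : ℝ} (hdl : ∀ x, dl φ x = c) {e : Ch n M}
    (he : e ∈ atlas (E n) M) {z : E n} (hz : z ∈ e.target) :
    (lev (φ e) z).det = (c : ℂ) * (Real.exp (-φ e z) : ℂ) := by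
  have h1 := dl_eq hφ he (e.map_target hz)
  rw [hdl, e.right_inv hz] at h1
  have h2 := (hφ.pos e he z hz).det_pos
  rw [Complex.lt_def] at h2
  have h3 : (((lev (φ e) z).det.re : ℝ) : ℂ) = (lev (φ e) z).det := by
    apply Complex.ext
    · simp
    · simpa using h2.2
  rw [← h3, ← Complex.ofReal_mul, h1, mul_assoc, ← Real.exp_add]
  simp

theorem c_ne [Nonempty M] (hφ : IsPos 1 φ) {c : ℝ} (hdl : ∀ x, dl φ x = c) : c ≠ 0 := by
  obtain ⟨x⟩ := ‹Nonempty M›
  rw [← hdl x]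
  exact (dl_pos hφ x).ne'

/-- the Laplacian in a chart -/
theorem bx_chart (hφ : IsPos 1 φ) {c : ℝ} (hdl : ∀ x, dl φ x = c) {e : Ch n M}
    (he : e ∈ atlas (E n) M) {f : E n → ℂ} (hf : ContDiffOn ℝ ∞ f e.target) {y : E n}
    (hy : y ∈ e.target) :
    bx (φ e) f y = -∑ j, ∑ k, (lev (φ e) y)⁻¹ k j * dz j (db k f) y := by
  have : Nonempty M := ⟨e.symm y⟩
  exact bx_eq e.open_target (hφ.smooth e he) (hφ.pos e he) (c_ne hφ hdl)
    (fun z hz => det_eq hφ hdl he hz) hf hy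

end KE

end Pool.Agent.helper63.NU
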