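import Pool.Agent.helper63.NU.Defs4
import Pool.Agent.helper26.NU.KELap

set_option autoImplicit false
set_option linter.all false

/-! Module M2c of MP_737c0a_gt: on a Kähler–Einstein manifold the Laplacian is a real operator. -/

open MeasureTheory Filter Topology Set
open scoped ContDiff Manifold Matrix ENNReal ComplexOrder

noncomputable section

namespace Pool.Agent.helper63.NU

variable {n : ℕ} {M : Type*} [TopologicalSpace M] [ChartedSpace (E n) M]
  [IsManifold 𝓘(ℂ, E n) ω M] {φ : Fam n M ℝ}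

theorem KE.inv_herm {Θ : Matrix (Fin n) (Fin n) ℂ} (h : Θ.PosDef) (j k : Fin n) :
    (starRingEnd ℂ) (Θ⁻¹ k j) = Θ⁻¹ j k := by
  have h1 : (Θ⁻¹).IsHermitian := h.isHermitian.inv
  exact congrFun (congrFun h1 j) k

theorem box_conj (hφ : IsPos 1 φ) {c : ℝ} (hdl : ∀ x, dl φ x = c) {v : M → ℂ} (hv : Sm n v)
    {e : Ch n M} (he : e ∈ atlas (E n) M) {y : E n} (hy : y ∈ e.target) :
    bx (φ e) (fun z => (starRingEnd ℂ) (v (e.symm z))) y
      = (starRingEnd ℂ) (bx (φ e) (fun z => v (e.symm z)) y) := by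
  set f : E n → ℂ := fun z => v (e.symm z) with hf
  have hfs : ContDiffOn ℝ ∞ f e.target := hv e he
  have hfc : ContDiffOn ℝ ∞ (fun z => (starRingEnd ℂ) (f z)) e.target :=
    (Complex.conjCLE.contDiff).comp_contDiffOn hfs
  have hf2 : ContDiffAt ℝ 2 f y :=
    (hfs.contDiffAt (e.open_target.mem_nhds hy)).of_le (by norm_cast)
  rw [KE.bx_chart hφ hdl he hfc hy, KE.bx_chart hφ hdl he hfs hy]
  rw [map_neg, map_sum, Finset.sum_comm]
  congr 1
  refine Finset.sum_congr rfl fun k _ => ?_
  rw [map_sum]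
  refine Finset.sum_congr rfl fun j _ => ?_
  have h1 : (fun z => db k (fun z => (starRingEnd ℂ) (f z)) z) = fun z =>
      (starRingEnd ℂ) (dz k f z) := by
    funext z
    exact db_conj f z k
  have h2 : dz j (db k (fun z => (starRingEnd ℂ) (f z))) y = (starRingEnd ℂ) (db j (dz k f) y) := by
    have h3 : db k (fun z => (starRingEnd ℂ) (f z)) = fun z => (starRingEnd ℂ) (dz k f z) := h1
    rw [h3]
    exact dz_conj (dz k f) y j
  rw [h2, map_mul, KE.inv_herm (hφ.pos e he y hy), dz_db_comm hf2]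

end Pool.Agent.helper63.NU
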