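import Pool.Agent.helper31.NU.PDefs2
import Pool.Agent.helper26.NU.KELap
import Pool.Agent.helper70.NU.A7
import Pool.Agent.helper69.NU.B2
import Pool.Agent.helper51.NU.B3
import Pool.Agent.helper95.NU.B4b
import Pool.Agent.helper2.NU.B5

set_option autoImplicit false
set_option linter.all false

/-! Module P16 of MP_737c0a_gt: Green's formula on a compact Kähler–Einstein manifold. -/

open MeasureTheory Filter Topology Set
open scoped ContDiff Manifold Matrix ENNReal ComplexOrder

noncomputable section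

namespace Pool.Agent.helper63.NU

variable {n : ℕ} {M : Type*} [TopologicalSpace M] [ChartedSpace (E n) M]
  [IsManifold 𝓘(ℂ, E n) ω M]
variable [CompactSpace M] [T2Space M]
variable [MeasurableSpace M] [BorelSpace M] {μ : Measure M} {φ : Fam n M ℝ}

/-- continuity of `cn Θ (∂̄f) (∂̄g)` -/
theorem KE.continuousOn_cn {n : ℕ} {U : Set (E n)} (hU : IsOpen U) {ψ : E n → ℝ}
    (hψ : ContDiffOn ℝ ∞ ψ U) (hp : ∀ y ∈ U, (lev ψ y).PosDef) {f g : E n → ℂ}
    (hf : ContDiffOn ℝ ∞ f U) (hg : ContDiffOn ℝ ∞ g U) :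
    ContinuousOn (fun y => cn (lev ψ y) (dbv f y) (dbv g y)) U := by
  unfold cn dbv
  refine continuousOn_finsetSum _ fun k _ => continuousOn_finsetSum _ fun j _ => ?_
  exact ((contDiffOn_db hU hf k).continuousOn.mul
    (contDiffOn_lev_inv hU hψ hp k j).continuousOn).mul
    (Complex.continuous_conj.comp_continuousOn (contDiffOn_db hU hg j).continuousOn)

/-- `ip_box` (helper2/NU/B5) with `k = 0`, `ψ = φ`, `s = v`, `t = u`, and `box φ v = - lap φ v`
because `e^{-φ} = det (∂∂̄φ)/c` and `∑_j ∂_j (det Θ Θ⁻¹_{kj}) = 0` (`cof_div`, helper5/NU/H1). -/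
theorem green_ke (hφ : IsPos 1 φ) (hμ : IsDens μ φ) {c : ℝ} (hc : ∀ x, dl φ x = c) {u v : M → ℝ}
    (hu : Sm n fun x => ((u x : ℝ) : ℂ)) (hv : Sm n fun x => ((v x : ℝ) : ℂ)) :
    ∫ x, u x * lap φ v x ∂μ = -∫ x, gr2 φ u v x ∂μ := by
  have hfin := isFiniteMeasure_of_isDens hφ.toIsWeight hμ
  have hφ' : IsPos (0 + 1) φ := hφ
  set uF : Fam n M ℂ := fun e y => ((u (e.symm y) : ℝ) : ℂ) with huF
  set vF : Fam n M ℂ := fun e y => ((v (e.symm y) : ℝ) : ℂ) with hvF
  have hus : IsSec 0 uF := isSec_zero_iff.1 hu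
  have hvs : IsSec 0 vF := isSec_zero_iff.1 hv
  have key := ip_box hφ.toIsWeight hμ hφ' hvs hus
  have hexp : ∀ e ∈ atlas (E n) M, ContinuousOn (fun y => (Real.exp (-φ e y) : ℂ)) e.target :=
    fun e he => Complex.continuous_ofReal.comp_continuousOn
      (Real.continuous_exp.comp_continuousOn ((hφ.smooth e he).continuousOn.neg))
  -- integrability
  have hI1 : Integrable (fn φ (pr φ (box φ vF) uF)) μ := by
    refine (continuous_fn hφ.toIsWeight (pr_isDen (k := 0) hφ.toIsWeight (box_isSec hφ' hvs) hus)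
      fun e he => ?_).integrable_of_hasCompactSupport (HasCompactSupport.of_compactSpace _)
    exact ((contDiffOn_bx e.open_target (hφ.smooth e he) (hφ.pos e he)
      (hvs.smooth e he)).continuousOn.mul
      (Complex.continuous_conj.comp_continuousOn (hus.smooth e he).continuousOn)).mul (hexp e he)
  have hI2 : Integrable (fn φ (en φ vF uF)) μ := by
    refine (continuous_fn hφ.toIsWeight (en_isDen (k := 0) hφ' hvs hus)
      fun e he => ?_).integrable_of_hasCompactSupport (HasCompactSupport.of_compactSpace _)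
    exact (KE.continuousOn_cn e.open_target (hφ.smooth e he) (hφ.pos e he) (hvs.smooth e he)
      (hus.smooth e he)).mul (hexp e he)
  have h1 : ∫ x, -(u x * lap φ v x) ∂μ = (ip μ φ φ (box φ vF) uF).re := by
    have h2 : ∀ x, -(u x * lap φ v x) = Complex.reCLM (fn φ (pr φ (box φ vF) uF) x) := by
      intro x
      set e := chartAt (E n) x with he
      have hemem : e ∈ atlas (E n) M := chart_mem_atlas (E n) x
      have hey : e x ∈ e.target := mem_chart_target (E n) x
      have h3 : box φ vF e (e x) = -∑ j, ∑ k, (lev (φ e) (e x))⁻¹ k j *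
          lev (fun z => v (e.symm z)) (e x) j k :=
        KE.bx_chart hφ hc hemem (hvs.smooth e hemem) hey
      have h4 : ((Real.exp (-φ e (e x)) : ℝ) : ℂ) * ((Real.exp (φ e (e x)) : ℝ) : ℂ) = 1 := by
        rw [← Complex.ofReal_mul, ← Real.exp_add]
        simp
      have h5 : fn φ (pr φ (box φ vF) uF) x = box φ vF e (e x) * ((u x : ℝ) : ℂ) := by
        show box φ vF e (e x) * (starRingEnd ℂ) (((u (e.symm (e x)) : ℝ) : ℂ)) *
          ((Real.exp (-φ e (e x)) : ℝ) : ℂ) * ((Real.exp (φ e (e x)) : ℝ) : ℂ) = _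
        rw [mul_assoc, h4, mul_one, e.left_inv (mem_chart_source (E n) x), Complex.conj_ofReal]
      rw [h5, h3]
      show -(u x * lap φ v x) = Complex.re _
      rw [Complex.re_mul_ofReal, Complex.neg_re]
      unfold lap
      ring
    simp only [h2]
    rw [ContinuousLinearMap.integral_comp_comm _ hI1]
    rfl
  have h6 : ∫ x, gr2 φ u v x ∂μ = (dp μ φ φ vF uF).re := by
    have h2 : ∀ x, gr2 φ u v x = Complex.reCLM (fn φ (en φ vF uF) x) := by
      intro x
      set e := chartAt (E n) x with he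
      have hemem : e ∈ atlas (E n) M := chart_mem_atlas (E n) x
      have hey : e x ∈ e.target := mem_chart_target (E n) x
      have h4 : ((Real.exp (-φ e (e x)) : ℝ) : ℂ) * ((Real.exp (φ e (e x)) : ℝ) : ℂ) = 1 := by
        rw [← Complex.ofReal_mul, ← Real.exp_add]
        simp
      have h5 : fn φ (en φ vF uF) x = cn (lev (φ e) (e x)) (dbv (vF e) (e x)) (dbv (uF e) (e x)) := by
        show cn (lev (φ e) (e x)) (dbv (vF e) (e x)) (dbv (uF e) (e x)) *
          ((Real.exp (-φ e (e x)) : ℝ) : ℂ) * ((Real.exp (φ e (e x)) : ℝ) : ℂ) = _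
        rw [mul_assoc, h4, mul_one]
      rw [h5, ← cn_conj (hφ.pos e hemem _ hey)]
      show gr2 φ u v x = ((starRingEnd ℂ) (cn (lev (φ e) (e x)) (dbv (uF e) (e x))
        (dbv (vF e) (e x)))).re
      rw [Complex.conj_re]
      rfl
    simp only [h2]
    rw [ContinuousLinearMap.integral_comp_comm _ hI2]
    rfl
  rw [h6, ← key, ← h1, integral_neg, neg_neg]

end Pool.Agent.helper63.NU
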